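import Pool.Agent.W143.EG.Lev

/-! Project EG: port of W409.EC.Good to imaginary quadratic orders. -/

set_option autoImplicit false

namespace Pool.Agent.W143.EG

open Finset
open Pool.Agent.W78.GA (Qd nm prim dt ip lat cellM mE ps DPG ball pball edge dedge ang Ele kap)
open Pool.Agent.W78.EC (Tr SL av rs cE rsf S_CE S_TUP S_CODE S_DV)
open Pool.Agent.W78.EG
open Pool.Agent.W409.EC (ce_nonneg ce_chain ce_map ce_cond ce_card ce_low ce_le_add ce_swap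
  levels decr fin_est ell_le)

variable {t c : ℤ} {f : ℕ} {χ : DirichletCharacter ℂ f}

lemma mem_PQ {q p : ℕ} (h : p ∈ PQ χ q) : q < p ∧ p ≤ 2 * q ∧ p.Prime := by
  unfold PQ at h
  rw [Finset.mem_filter, Finset.mem_Ioc] at h
  exact ⟨h.1.1, h.1.2, h.2.1⟩

lemma rs_cast {p : ℕ} (hp : 1 ≤ p) (x : ℤ) : ((rs p x : ℕ) : ℤ) = x - p * (x / p) := by
  unfold rs
  rw [Int.toNat_of_nonneg (Int.emod_nonneg _ (by exact_mod_cast (by omega : p ≠ 0)))]
  rw [Int.emod_def]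

lemma rs_lt {p : ℕ} (hp : 1 ≤ p) (x : ℤ) : rs p x < p := by
  unfold rs
  have h1 : x % (p : ℤ) < p := Int.emod_lt_of_pos _ (by exact_mod_cast hp)
  have h2 : 0 ≤ x % (p : ℤ) := Int.emod_nonneg _ (by exact_mod_cast (by omega : p ≠ 0))
  omega

lemma res_mem {p : ℕ} (hp : 1 ≤ p) (e : Qd t c × Qd t c) (he : dt e.1 e.2 = 1) : res p e ∈ SL p := by
  unfold SL res
  rw [Finset.mem_filter]
  constructor
  · simp only [Finset.mem_product, Finset.mem_range]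
    exact ⟨rs_lt hp _, rs_lt hp _, rs_lt hp _, rs_lt hp _⟩
  · simp only
    rw [rs_cast hp, rs_cast hp, rs_cast hp, rs_cast hp]
    unfold dt at he
    generalize hA : e.1.re / (p : ℤ) = A
    generalize hB : e.1.im / (p : ℤ) = B
    generalize hC : e.2.re / (p : ℤ) = C
    generalize hD : e.2.im / (p : ℤ) = D
    refine ⟨-e.1.re * D - A * e.2.im + p * A * D + e.1.im * C + B * e.2.re - p * B * C, ?_⟩
    linear_combination he

lemma edge_dt {X : ℝ} {e : Qd t c × Qd t c} (he : e ∈ edge t c X) : dt e.1 e.2 = 1 := by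
  unfold edge at he
  rw [Finset.mem_filter] at he
  exact he.2.1

lemma SL_pos {p : ℕ} (hp : 2 ≤ p) : 0 < (SL p).card := by
  rw [Finset.card_pos]
  refine ⟨(1, 0, 0, 1), ?_⟩
  unfold SL
  rw [Finset.mem_filter]
  constructor
  · simp only [Finset.mem_product, Finset.mem_range]
    omega
  · simp

open scoped Classical in
lemma good_level (h1 : S_CE) (h4 : S_DV) {A : Type} (lab : ℕ → Qd t c → A) (K q X₀ N : ℕ)
    (hK : 1 ≤ K) (hq : 1 ≤ q) (c1 Cr x τ B : ℝ) (hc1 : 0 < c1) (hCr : 0 < Cr) (hτ : 0 < τ)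
    (hlow : cE (Om t c K q X₀ N) wt (Dd lab) (fun _ => ()) - x ≤
      cE (Om t c K q X₀ N) wt (Dd lab) (Rr (PQ χ q)))
    (hres : ∀ X ∈ Ioc X₀ N, ∀ y : ℕ → ℕ × ℕ × ℕ × ℕ,
      (((edge t c ((X : ℝ) / (K * q))).filter (fun e => ∀ p ∈ PQ χ q, res p e = y p)).card : ℝ) ≤
        Cr * ((X : ℝ) / (K * q)) / ∏ p ∈ PQ χ q, ((SL p).card : ℝ))
    (hW : c1 * (∑ X ∈ Ioc X₀ N, 1 / (X : ℝ)) / (K * q) ≤ WW t c K q X₀ N)
    (ζ : ℕ → Tr A → ℕ × ℕ × ℕ × ℕ → ℝ) (hζ : ∀ p T y, |ζ p T y| ≤ B) :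
    ∑ X ∈ Ioc X₀ N, 1 / (X : ℝ) ^ 2 * ∑ e ∈ edge t c ((X : ℝ) / (K * q)),
      |∑ p ∈ PQ χ q, Real.log p * (ζ p (TT (lab X) X e) (res p e) - av p (ζ p) (TT (lab X) X e))| ≤
    1 / τ * (WW t c K q X₀ N * (Real.log 2 + Real.log (Cr / c1)) + x) +
      WW t c K q X₀ N * (τ * (2 * B ^ 2) * ∑ p ∈ PQ χ q, Real.log p ^ 2) := by
  have hw : ∀ ω ∈ Om t c K q X₀ N, 0 ≤ wt ω := fun ω _ => wt_nonneg ω
  have hSL : ∀ p ∈ PQ χ q, (0 : ℝ) < ((SL p).card : ℝ) := fun p hp => by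
    exact_mod_cast SL_pos (mem_PQ hp).2.2.two_le
  have hprod : 0 < ∏ p ∈ PQ χ q, ((SL p).card : ℝ) := Finset.prod_pos hSL
  have hKq : (0 : ℝ) < K * q := by positivity
  -- the entropy of the residues
  have hY : WW t c K q X₀ N * Real.log (1 / (Cr / (c1 * ∏ p ∈ PQ χ q, ((SL p).card : ℝ)))) ≤
      cE (Om t c K q X₀ N) wt (Rr (PQ χ q)) (fun _ => ()) := by
    refine ce_low h1 hw (Rr (PQ χ q)) _ (div_pos hCr (mul_pos hc1 hprod)) fun a => ?_
    have e1 : ∑ ω ∈ (Om t c K q X₀ N).filter (fun ω => Rr (PQ χ q) ω = a), wt ω ≤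
        ∑ X ∈ Ioc X₀ N, 1 / (X : ℝ) ^ 2 *
          (Cr * ((X : ℝ) / (K * q)) / ∏ p ∈ PQ χ q, ((SL p).card : ℝ)) := by
      rw [Finset.sum_filter]
      unfold Om
      rw [Finset.sum_sigma]
      refine Finset.sum_le_sum fun X hX => ?_
      have h2 : (0 : ℝ) ≤ 1 / (X : ℝ) ^ 2 := by positivity
      refine le_trans ?_ (mul_le_mul_of_nonneg_left (hres X hX a) h2)
      rw [← Finset.sum_filter]
      have h9 : ∀ e ∈ (edge t c ((X : ℝ) / (K * q))).filter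
          (fun e => Rr (PQ χ q) (⟨X, e⟩ : Σ _ : ℕ, Qd t c × Qd t c) = a),
          wt ⟨X, e⟩ = 1 / (X : ℝ) ^ 2 := fun _ _ => rfl
      rw [Finset.sum_congr rfl h9, Finset.sum_const, nsmul_eq_mul, mul_comm]
      refine mul_le_mul_of_nonneg_left ?_ h2
      norm_cast
      refine Finset.card_le_card fun e he => ?_
      rw [Finset.mem_filter] at he ⊢
      refine ⟨he.1, fun p hp => ?_⟩
      have h3 := congrFun he.2 p
      unfold Rr rsf at h3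
      rw [if_pos hp] at h3
      exact h3
    have e2 : ∑ X ∈ Ioc X₀ N, 1 / (X : ℝ) ^ 2 *
          (Cr * ((X : ℝ) / (K * q)) / ∏ p ∈ PQ χ q, ((SL p).card : ℝ)) =
        Cr / (c1 * ∏ p ∈ PQ χ q, ((SL p).card : ℝ)) *
          (c1 * (∑ X ∈ Ioc X₀ N, 1 / (X : ℝ)) / (K * q)) := by
      rw [Finset.mul_sum, Finset.sum_div, Finset.mul_sum]
      refine Finset.sum_congr rfl fun X hX => ?_
      have hX0 : (X : ℝ) ≠ 0 := by
        rw [Finset.mem_Ioc] at hX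
        have : 0 < X := by omega
        positivity
      have hprod' := hprod.ne'
      generalize (∏ p ∈ PQ χ q, ((SL p).card : ℝ)) = Pd at hprod' ⊢
      field_simp
    refine e1.trans (e2.le.trans ?_)
    exact mul_le_mul_of_nonneg_left hW (div_pos hCr (mul_pos hc1 hprod)).le
  have hlog : Real.log (1 / (Cr / (c1 * ∏ p ∈ PQ χ q, ((SL p).card : ℝ)))) =
      ∑ p ∈ PQ χ q, Real.log ((SL p).card : ℝ) - Real.log (Cr / c1) := by
    rw [← Real.log_prod (fun p hp => (hSL p hp).ne'), ← Real.log_div hprod.ne' (by positivity)]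
    congr 1
    have hprod' := hprod.ne'
    generalize (∏ p ∈ PQ χ q, ((SL p).card : ℝ)) = Pd at hprod' ⊢
    field_simp
  rw [hlog] at hY
  have hsw := ce_swap h1 hw (Dd lab) (Rr (PQ χ q))
  have hdv := h4 (Σ _ : ℕ, Qd t c × Qd t c) (Tr A) (ℕ × ℕ × ℕ × ℕ) (Om t c K q X₀ N) wt (Dd lab) (PQ χ q)
    (fun ω p => res p ω.2) SL (fun p => Real.log p) ζ B τ hw (by
      rintro ⟨X, e⟩ hω p hp
      unfold Om at hω
      rw [Finset.mem_sigma] at hω
      exact res_mem (mem_PQ hp).2.2.one_le e (edge_dt hω.2)) hζ hτ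
  have hlhs : ∑ X ∈ Ioc X₀ N, 1 / (X : ℝ) ^ 2 * ∑ e ∈ edge t c ((X : ℝ) / (K * q)),
      |∑ p ∈ PQ χ q, Real.log p *
        (ζ p (TT (lab X) X e) (res p e) - av p (ζ p) (TT (lab X) X e))| =
      ∑ ω ∈ Om t c K q X₀ N, wt ω * |∑ p ∈ PQ χ q, (fun p : ℕ => Real.log p) p *
        (ζ p (Dd lab ω) ((fun (ω : Σ _ : ℕ, Qd t c × Qd t c) p => res p ω.2) ω p) -
          (∑ y ∈ SL p, ζ p (Dd lab ω) y) / ((SL p).card : ℝ))| := by
    unfold Om
    rw [Finset.sum_sigma]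
    refine Finset.sum_congr rfl fun X _ => ?_
    rw [Finset.mul_sum]
    rfl
  rw [hlhs]
  refine hdv.trans ?_
  have hτ' : 0 ≤ 1 / τ := by positivity
  refine add_le_add (mul_le_mul_of_nonneg_left ?_ hτ') le_rfl
  have h6 : cE (Om t c K q X₀ N) wt (rsf (PQ χ q) (fun ω p => res p ω.2)) (Dd lab) =
      cE (Om t c K q X₀ N) wt (Rr (PQ χ q)) (Dd lab) := rfl
  rw [h6]
  have h7 : (∑ ω ∈ Om t c K q X₀ N, wt ω) = WW t c K q X₀ N := rfl
  rw [h7]
  nlinarith [hsw, hY, hlow]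

end Pool.Agent.W143.EG
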