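import Pool.Agent.W78.EG.Defs
import Pool.Agent.W409.EC.Chain
import Pool.Agent.W409.EC.Real

/-! Project EG: port of W409.EC.Lev to imaginary quadratic orders. -/

set_option autoImplicit false

namespace Pool.Agent.W143.EG

open Finset
open Pool.Agent.W78.GA (Qd nm prim dt ip lat cellM mE ps DPG ball pball edge dedge ang Ele kap)
open Pool.Agent.W78.EC (Tr SL av rs cE rsf S_CE S_TUP S_CODE S_DV)
open Pool.Agent.W78.EG
open Pool.Agent.W409.EC (ce_nonneg ce_chain ce_map ce_cond ce_card ce_low ce_le_add ce_swap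
  levels decr fin_est ell_le)

variable {t c : ℤ} {f : ℕ}

/-- the probability space of the level `q` -/
noncomputable def Om (t c : ℤ) (K q X₀ N : ℕ) : Finset (Σ _ : ℕ, Qd t c × Qd t c) :=
  (Ioc X₀ N).sigma (fun X => edge t c ((X : ℝ) / (K * q)))

/-- the weight -/
noncomputable def wt (ω : Σ _ : ℕ, Qd t c × Qd t c) : ℝ := 1 / (ω.1 : ℝ) ^ 2

lemma wt_nonneg (ω : Σ _ : ℕ, Qd t c × Qd t c) : 0 ≤ wt ω := by unfold wt; positivity

/-- the tree -/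
noncomputable def Dd {A : Type} (lab : ℕ → Qd t c → A) (ω : Σ _ : ℕ, Qd t c × Qd t c) : Tr A :=
  TT (lab ω.1) ω.1 ω.2

/-- the top of the tree -/
noncomputable def Tp {A : Type} (lab : ℕ → Qd t c → A) (K q : ℕ) (ω : Σ _ : ℕ, Qd t c × Qd t c) : Tr A :=
  TT (lab ω.1) ((ω.1 : ℝ) / (K * q)) ω.2

/-- the residues -/
def Rr (P : Finset ℕ) : (Σ _ : ℕ, Qd t c × Qd t c) → ℕ → ℕ × ℕ × ℕ × ℕ := rsf P (fun ω p => res p ω.2)

/-- the total weight -/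
noncomputable def WW (t c : ℤ) (K q X₀ N : ℕ) : ℝ := ∑ ω ∈ Om t c K q X₀ N, wt ω

lemma WW_eq (K q X₀ N : ℕ) : WW t c K q X₀ N =
    ∑ X ∈ Ioc X₀ N, 1 / (X : ℝ) ^ 2 * ((edge t c ((X : ℝ) / (K * q))).card : ℝ) := by
  unfold WW Om wt
  rw [Finset.sum_sigma]
  refine Finset.sum_congr rfl fun X _ => ?_
  simp only
  rw [Finset.sum_const, nsmul_eq_mul, mul_comm]

lemma leafsum (h5 : S_TREE t c f) {A : Type} (lab : Qd t c → A) {Y Y' : ℝ} (hY : f ≤ Y) (hYY : Y ≤ Y') :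
    ∑ e ∈ edge t c Y, (1 + ((TT lab Y' e).size : ℝ)) ≤ ((edge t c Y').card : ℝ) := by
  classical
  have h1 : ∀ e ∈ edge t c Y, (1 + ((TT lab Y' e).size : ℝ)) =
      (((lv (TT lab Y' e) e.1 e.2).toFinset.card : ℕ) : ℝ) := by
    intro e he
    obtain ⟨h2, h3, h4⟩ := (h5 A).1 lab Y Y' e hY hYY he
    rw [List.toFinset_card_of_nodup h2, ← h4]
    push_cast
    ring
  rw [Finset.sum_congr rfl h1, ← Nat.cast_sum]
  norm_cast
  rw [← Finset.card_biUnion]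
  · refine Finset.card_le_card (Finset.biUnion_subset.2 fun e he f hf => ?_)
    exact ((h5 A).1 lab Y Y' e hY hYY he).2.1 f (List.mem_toFinset.1 hf)
  · intro e he e' he' hne
    rw [Finset.mem_coe] at he he'
    rw [Function.onFun, Finset.disjoint_left]
    intro f hf hf'
    rw [List.mem_toFinset] at hf hf'
    have hfe := ((h5 A).1 lab Y Y' e hY hYY he).2.1 f hf
    obtain ⟨e0, -, hu⟩ := (h5 A).2.1 lab Y Y' hY hYY f hfe
    exact hne ((hu e ⟨he, hf⟩).trans (hu e' ⟨he', hf'⟩).symm)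

lemma code_le (h5 : S_TREE t c f) {A : Type} {CA : ℝ} (hCA0 : 0 < CA)
    (hCA : ∀ (Ω : Type) (s : Finset Ω) (w : Ω → ℝ) (T : Ω → Tr A), (∀ ω ∈ s, 0 ≤ w ω) →
      cE s w T (fun _ => ()) ≤ CA * ∑ ω ∈ s, w ω * (1 + (T ω).size))
    (lab : ℕ → Qd t c → A) (K q X₀ N : ℕ) (g : ℕ → ℝ)
    (hX : ∀ X ∈ Ioc X₀ N, (f : ℝ) ≤ (X : ℝ) / (K * q)) (hg : ∀ X ∈ Ioc X₀ N, (X : ℝ) / (K * q) ≤ g X) :
    cE (Om t c K q X₀ N) wt (fun ω => TT (lab ω.1) (g ω.1) ω.2) (fun _ => ()) ≤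
      CA * ∑ X ∈ Ioc X₀ N, 1 / (X : ℝ) ^ 2 * ((edge t c (g X)).card : ℝ) := by
  refine (hCA _ _ _ _ fun ω _ => wt_nonneg ω).trans ?_
  refine mul_le_mul_of_nonneg_left ?_ hCA0.le
  unfold Om
  rw [Finset.sum_sigma]
  refine Finset.sum_le_sum fun X hX' => ?_
  have h1 := leafsum h5 (lab X) (hX X hX') (hg X hX')
  have h2 : (0 : ℝ) ≤ 1 / (X : ℝ) ^ 2 := by positivity
  calc ∑ e ∈ edge t c ((X : ℝ) / (K * q)), wt ⟨X, e⟩ * (1 + ((TT (lab X) (g X) e).size : ℝ))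
      = 1 / (X : ℝ) ^ 2 * ∑ e ∈ edge t c ((X : ℝ) / (K * q)),
        (1 + ((TT (lab X) (g X) e).size : ℝ)) := by
        rw [Finset.mul_sum]
        rfl
    _ ≤ _ := mul_le_mul_of_nonneg_left h1 h2

/-- the step of the entropy decrement -/
lemma step1 (h1 : S_CE) (h2 : S_TUP) (h5 : S_TREE t c f) {A : Type} (lab : ℕ → Qd t c → A)
    (K q q' X₀ N : ℕ) (P : Finset ℕ) (hP : ∀ p ∈ P, 1 ≤ p)
    (hX : ∀ X ∈ Ioc X₀ N, (f : ℝ) ≤ (X : ℝ) / (K * q'))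
    (hqq : ∀ X ∈ Ioc X₀ N, (X : ℝ) / (K * q') ≤ (X : ℝ) / (K * q))
    (hqX : ∀ X ∈ Ioc X₀ N, (X : ℝ) / (K * q) ≤ X) :
    cE (Om t c K q' X₀ N) wt (Dd lab) (Rr P) ≤
      cE (Om t c K q' X₀ N) wt (Tp lab K q) (fun _ => ()) +
        cE (Om t c K q X₀ N) wt (Dd lab) (Rr P) := by
  classical
  obtain ⟨h5a, h5b, ⟨Φ, hΦ⟩, ⟨Ψ, hΨ⟩⟩ := h5 A
  let l : (Σ _ : ℕ, Qd t c × Qd t c) → List (Qd t c × Qd t c) := fun ω => lv (Tp lab K q ω) ω.2.1 ω.2.2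
  let ch : (Σ _ : ℕ, Qd t c × Qd t c) → ℕ → (Σ _ : ℕ, Qd t c × Qd t c) := fun ω j =>
    ⟨ω.1, ((l ω)[j]?).getD (0, 0)⟩
  let par : (Σ _ : ℕ, Qd t c × Qd t c) → (Σ _ : ℕ, Qd t c × Qd t c) := fun cc =>
    if h : ∃ e, e ∈ edge t c ((cc.1 : ℝ) / (K * q')) ∧ cc.2 ∈ l ⟨cc.1, e⟩ then ⟨cc.1, h.choose⟩ else cc
  let ix : (Σ _ : ℕ, Qd t c × Qd t c) → ℕ := fun cc => (l (par cc)).idxOf cc.2
  have hw : ∀ (q : ℕ), ∀ ω ∈ Om t c K q X₀ N, 0 ≤ wt ω := fun _ ω _ => wt_nonneg ω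
  have hmem : ∀ (q : ℕ) (X : ℕ) (e : Qd t c × Qd t c), (⟨X, e⟩ : Σ _ : ℕ, Qd t c × Qd t c) ∈ Om t c K q X₀ N ↔
      X ∈ Ioc X₀ N ∧ e ∈ edge t c ((X : ℝ) / (K * q)) := by
    intro q X e
    unfold Om
    rw [Finset.mem_sigma]
  have hlen : ∀ ω ∈ Om t c K q' X₀ N, (l ω).Nodup ∧ (∀ f ∈ l ω, f ∈ edge t c ((ω.1 : ℝ) / (K * q))) ∧
      (Tp lab K q ω).size + 1 = (l ω).length := by
    rintro ⟨X, e⟩ hω
    rw [hmem] at hω
    exact h5a (lab X) _ _ e (hX X hω.1) (hqq X hω.1) hω.2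
  have hpar : ∀ cc ∈ Om t c K q X₀ N, par cc ∈ Om t c K q' X₀ N ∧ (par cc).1 = cc.1 ∧ cc.2 ∈ l (par cc) := by
    rintro ⟨X, f⟩ hc
    rw [hmem] at hc
    obtain ⟨e, he, -⟩ := h5b (lab X) _ _ (hX X hc.1) (hqq X hc.1) f hc.2
    have hex : ∃ e, e ∈ edge t c ((X : ℝ) / (K * q')) ∧ f ∈ l ⟨X, e⟩ := ⟨e, he⟩
    have h3 : par ⟨X, f⟩ = ⟨X, hex.choose⟩ := dif_pos hex
    rw [h3, hmem]
    exact ⟨⟨hc.1, hex.choose_spec.1⟩, rfl, hex.choose_spec.2⟩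
  have hchild : ∀ ω ∈ Om t c K q' X₀ N, ∀ j < (l ω).length, ch ω j ∈ Om t c K q X₀ N ∧
      par (ch ω j) = ω ∧ (ch ω j).2 = (l ω)[j]! ∧ ix (ch ω j) = j := by
    intro ω hω j hj
    obtain ⟨h3, h4, h6⟩ := hlen ω hω
    have h7 : (l ω)[j]? = some ((l ω)[j]) := List.getElem?_eq_getElem hj
    have h8 : ch ω j = ⟨ω.1, (l ω)[j]⟩ := by
      show (⟨ω.1, ((l ω)[j]?).getD (0, 0)⟩ : Σ _ : ℕ, Qd t c × Qd t c) = _
      rw [h7]
      rfl
    have hωm := hω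
    obtain ⟨X, e⟩ := ω
    rw [hmem] at hωm
    have h9 : par (ch ⟨X, e⟩ j) = ⟨X, e⟩ := by
      rw [h8]
      have hex : ∃ e', e' ∈ edge t c ((X : ℝ) / (K * q')) ∧ (l ⟨X, e⟩)[j] ∈ l ⟨X, e'⟩ :=
        ⟨e, hωm.2, List.getElem_mem hj⟩
      have h10 : par ⟨X, (l ⟨X, e⟩)[j]⟩ = ⟨X, hex.choose⟩ := dif_pos hex
      rw [h10]
      have h11 := h4 _ (List.getElem_mem hj)
      obtain ⟨e0, -, hu⟩ := h5b (lab X) _ _ (hX X hωm.1) (hqq X hωm.1) _ h11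
      have h12 := hu hex.choose hex.choose_spec
      have h13 := hu e ⟨hωm.2, List.getElem_mem hj⟩
      rw [h12, h13]
    refine ⟨?_, h9, ?_, ?_⟩
    · rw [h8, hmem]
      exact ⟨hωm.1, h4 _ (List.getElem_mem hj)⟩
    · rw [h8, getElem!_pos (l ⟨X, e⟩) j hj]
    · show (l (par (ch ⟨X, e⟩ j))).idxOf (ch ⟨X, e⟩ j).2 = j
      rw [h9, h8]
      exact h3.idxOf_getElem j hj
  let L : (Σ _ : ℕ, Qd t c × Qd t c) → List (Tr A) := fun ω =>
    (List.range ((Tp lab K q ω).size + 1)).map (fun j => Dd lab (ch ω j))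
  have hL : ∀ ω ∈ Om t c K q' X₀ N, L ω = (l ω).map (TT (lab ω.1) ω.1) := by
    intro ω hω
    obtain ⟨h3, h4, h6⟩ := hlen ω hω
    refine List.ext_getElem ?_ fun j hj hj' => ?_
    · show (List.map _ _).length = _
      rw [List.length_map, List.length_map, List.length_range, h6]
    · have hj2 : j < (l ω).length := by rwa [List.length_map] at hj'
      show (List.map _ _)[j] = _
      rw [List.getElem_map, List.getElem_map, List.getElem_range]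
      show TT (lab ω.1) ω.1 ((((l ω)[j]?).getD (0, 0))) = _
      rw [List.getElem?_eq_getElem hj2]
      rfl
  have e1 : cE (Om t c K q' X₀ N) wt (Dd lab) (Rr P) ≤
      cE (Om t c K q' X₀ N) wt (fun ω => (L ω, Tp lab K q ω)) (Rr P) := by
    refine ce_map h1 (hw q') (fun ω => (L ω, Tp lab K q ω)) (Rr P) (Dd lab)
      (fun x _ => Φ x.2 x.1) fun ω hω => ?_
    show Dd lab ω = Φ (Tp lab K q ω) (L ω)
    rw [hL ω hω]
    obtain ⟨X, e⟩ := ω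
    rw [hmem] at hω
    exact hΦ (lab X) _ _ _ e (hX X hω.1) (hqq X hω.1) (hqX X hω.1) hω.2
  have e2 := ce_chain h1 (hw q') L (Rr P) (Tp lab K q)
  have e3 : cE (Om t c K q' X₀ N) wt (Tp lab K q) (Rr P) ≤
      cE (Om t c K q' X₀ N) wt (Tp lab K q) (fun _ => ()) :=
    ce_cond h1 (hw q') (Tp lab K q) (Rr P) (fun _ => ()) (fun _ => ()) (fun _ _ => rfl)
  have e4 : cE (Om t c K q' X₀ N) wt L (fun ω => (Tp lab K q ω, Rr P ω)) ≤
      cE (Om t c K q X₀ N) wt (Dd lab) (Rr P) := by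
    refine h2 (Σ _ : ℕ, Qd t c × Qd t c) (Σ _ : ℕ, Qd t c × Qd t c) (Tr A) (Tr A) (ℕ → ℕ × ℕ × ℕ × ℕ)
      (ℕ → ℕ × ℕ × ℕ × ℕ) (Om t c K q' X₀ N) (Om t c K q X₀ N) wt wt par ix (fun T => T.size + 1)
      (Tp lab K q) (Rr P) (Dd lab) (Rr P) ch
      (fun T j Y => fun p => if p ∈ P then Ψ T j p (Y p) else default) (hw q') ?_ ?_ ?_
    · intro cc hc
      obtain ⟨h3, h4, h6⟩ := hpar cc hc
      have h7 : ix cc < (l (par cc)).length := List.idxOf_lt_length_iff.2 h6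
      refine ⟨h3, ?_, ?_, ?_⟩
      · show ix cc < (Tp lab K q (par cc)).size + 1
        rw [(hlen _ h3).2.2]
        exact h7
      · show (⟨(par cc).1, ((l (par cc))[ix cc]?).getD (0, 0)⟩ : Σ _ : ℕ, Qd t c × Qd t c) = cc
        rw [List.getElem?_eq_getElem h7, h4]
        show (⟨cc.1, (l (par cc))[ix cc]⟩ : Σ _ : ℕ, Qd t c × Qd t c) = cc
        rw [List.getElem_idxOf h7]
      · unfold wt
        rw [h4]
    · intro ω hω j hj
      have hj' : j < (l ω).length := by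
        rw [← (hlen ω hω).2.2]
        exact hj
      obtain ⟨h3, h4, -, h6⟩ := hchild ω hω j hj'
      exact ⟨h3, h4, h6⟩
    · intro cc hc
      obtain ⟨h3, h4, h6⟩ := hpar cc hc
      have h7 : ix cc < (l (par cc)).length := List.idxOf_lt_length_iff.2 h6
      funext p
      show (if p ∈ P then res p cc.2 else default) =
        if p ∈ P then Ψ (Tp lab K q (par cc)) (ix cc) p
          (if p ∈ P then res p (par cc).2 else default) else default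
      by_cases hp : p ∈ P
      · rw [if_pos hp, if_pos hp, if_pos hp]
        refine hΨ (Tp lab K q (par cc)) (par cc).2 cc.2 (ix cc) p (hP p hp) ?_
        show (l (par cc))[ix cc]? = some cc.2
        rw [List.getElem?_eq_getElem h7, List.getElem_idxOf h7]
      · rw [if_neg hp, if_neg hp]
  linarith

end Pool.Agent.W143.EG
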